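import Mathlib
import Pool.Agent.R767.SS.Grp
import Pool.Agent.R767.SS.Main

/-!
# Self-separability in primitive groups: the limit superior of `F(n) / √n` is infinite

`SelfSep G A` (some `g ∈ G` has `A ∩ A^g = ∅`) and `mPar G` (the smallest size of a
non-self-separable set) are defined in `Pool/Agent/R767/SS/Grp.lean`.

The groups of the proof are `Sym(k)` acting on the three-element subsets of `{1, ..., k}`.
-/

set_option autoImplicit false

open MulAction Pool.Agent.R767.SS

namespace Pool.Agent.Results.MP_68b2c8_al.LimsupInfinite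

/-- For every real `C` and every `N` there is a primitive permutation group `G` on a finite set `Ω`
of size `n ≥ N`, different from `Sym(Ω)` and `Alt(Ω)`, with `m(G) > C √n`. -/
theorem result (C : ℝ) (N : ℕ) : ∃ (Ω : Type) (_ : Fintype Ω) (_ : DecidableEq Ω)
    (G : Subgroup (Equiv.Perm Ω)), N ≤ Fintype.card Ω ∧ IsPreprimitive G Ω ∧ G ≠ ⊤ ∧
      G ≠ alternatingGroup Ω ∧ C * √(Fintype.card Ω) < mPar G :=
  Pool.Agent.R767.SS.main C N

end Pool.Agent.Results.MP_68b2c8_al.LimsupInfinite
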